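import Pool.Agent.Helper70.BRT.Spec

/-! # CORE: solutions preserving `Nice` -/

namespace Pool.Agent.Helper70.BRT

universe u

section core

variable {M : Type u} [PModel M] {bd : M → M} {B : ℕ → Set M}

/-- `S` codes the greedy set below `n`. -/
def core_Gr (G : Set M) (n S : M) : Prop :=
  (∀ x, x < S → (el x S → x < n)) ∧
    ∀ z, z < n → (el z S ↔ mk (z + 1) (fun x => el x S ∨ x = z) ∈ G)

/-- The greedy set. -/
def core_V (bd : M → M) (G : Set M) : Set M :=
  {y | ∃ S, S < bd (y + 1) ∧ (core_Gr G (y + 1) S ∧ el y S)}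

theorem core_el (hC : CodAPI M bd) (B : ℕ → Set M) : RecP B (fun z : M × M => el z.1 z.2) :=
  hC.el_rec.of_pure B

theorem core_succ {Γ : Type u} [Ctx M Γ] {F : Γ → M} (hF : Rec B F) : Rec B (fun g => F g + 1) :=
  hF.add (Rec.const 1)

theorem core_gr_rec (hC : CodAPI M bd) (hB : Base B) {G : Set M} (hG : RecP B (fun x => x ∈ G)) :
    RecP B (fun z : M × M => core_Gr G z.1 z.2) := by
  have hel := core_el hC B
  refine RecP.and ?_ ?_
  · refine RecP.ball hB.coll (t := fun z : M × M => z.2) PMap.id.snd.rec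
      (R := fun z x => el x z.2 → x < z.1) ?_
    exact (hel.comp (F := fun g : (M × M) × M => (g.2, g.1.2))
      (PMap.id.snd.rec.prodMk PMap.id.fst.snd.rec)).imp
      (RecP.lt PMap.id.snd.rec PMap.id.fst.fst.rec)
  · refine RecP.ball hB.coll (t := fun z : M × M => z.1) PMap.id.fst.rec
      (R := fun z w => (el w z.2 ↔ mk (w + 1) (fun x => el x z.2 ∨ x = w) ∈ G)) ?_
    refine RecP.iff ?_ ?_
    · exact hel.comp (F := fun g : (M × M) × M => (g.2, g.1.2))
        (PMap.id.snd.rec.prodMk PMap.id.fst.snd.rec)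
    · refine RecP.comp (R := fun x => x ∈ G) (F := fun g : (M × M) × M =>
        mk (g.2 + 1) (fun x => el x g.1.2 ∨ x = g.2)) hG ?_
      refine hC.mk_rec B hB ((M × M) × M) (fun g x => el x g.1.2 ∨ x = g.2) (fun g => g.2 + 1)
        ?_ (core_succ PMap.id.snd.rec)
      refine RecP.or ?_ ?_
      · exact hel.comp (F := fun g : ((M × M) × M) × M => (g.2, g.1.1.2))
          (PMap.id.snd.rec.prodMk PMap.id.fst.fst.snd.rec)
      · exact RecP.eq PMap.id.snd.rec PMap.id.fst.snd.rec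

theorem core_V_rec (hC : CodAPI M bd) (hB : Base B) {G : Set M} (hG : RecP B (fun x => x ∈ G)) :
    RecP B (fun y => y ∈ core_V bd G) := by
  have hgr := core_gr_rec hC hB hG
  have hel := core_el hC B
  refine RecP.bex hB.coll (t := fun y : M => bd (y + 1)) ?_
    (R := fun y S => core_Gr G (y + 1) S ∧ el y S) ?_
  · exact (hC.bd_rec.of_pure B).comp (core_succ Rec.id)
  · refine RecP.and ?_ ?_
    · exact hgr.comp (F := fun g : M × M => (g.1 + 1, g.2))
        ((core_succ PMap.id.fst.rec).prodMk PMap.id.snd.rec)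
    · exact hel.comp (F := fun g : M × M => (g.1, g.2)) (PMap.id.fst.rec.prodMk PMap.id.snd.rec)

theorem core_lt_of_gr (hC : CodAPI M bd) {G : Set M} {n S x : M} (h : core_Gr G n S)
    (hx : el x S) : x < n := h.1 x (hC.el_lt x S hx) hx

/-- A code of a set which is recursive. -/
theorem core_code (hC : CodAPI M bd) (hB : Base B) {P : M → Prop} (hP : RecP B P) (n : M) :
    ∃ c, c < bd n ∧ ∀ x, el x c ↔ x < n ∧ P x :=
  ⟨mk n P, hC.mk_lt B hB P hP n, hC.mk_spec B hB P hP n⟩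

theorem core_el_rec1 (hC : CodAPI M bd) (B : ℕ → Set M) (S : M) : RecP B (fun x : M => el x S) :=
  (core_el hC B).comp (F := fun x : M => (x, S)) (Rec.id.prodMk (Rec.const S))

theorem core_eq_rec1 (B : ℕ → Set M) (z : M) : RecP B (fun x : M => x = z) :=
  RecP.eq Rec.id (Rec.const z)

/-- The greedy sets exist. -/
theorem core_exists (hC : CodAPI M bd) (hB : Base B) {G : Set M} (hG : RecP B (fun x => x ∈ G)) :
    ∀ n, ∃ S, S < bd n ∧ core_Gr G n S := by
  refine hB.ind (fun n => ∃ S, S < bd n ∧ core_Gr G n S) ?_ ?_ ?_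
  · refine RecP.bex hB.coll (t := fun n : M => bd n) (hC.bd_rec.of_pure B)
      (R := fun n S => core_Gr G n S) ?_
    exact core_gr_rec hC hB hG
  · obtain ⟨c, hc, hc2⟩ := core_code hC hB (P := fun _ => False) (RecP.const False) 0
    refine ⟨c, hc, ?_, ?_⟩
    · intro x _ hx
      exact ((hc2 x).mp hx).1
    · intro z hz
      exact absurd hz (not_lt_zero'' z)
  · rintro n ⟨S, hS, hgr⟩
    have hP : RecP B (fun x : M => el x S ∨ (x = n ∧ mk (n + 1) (fun x => el x S ∨ x = n) ∈ G)) :=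
      (core_el_rec1 hC B S).or ((core_eq_rec1 B n).and (RecP.const _))
    obtain ⟨c, hc, hc2⟩ := core_code hC hB hP (n + 1)
    have hlt : ∀ x, x < n → (el x c ↔ el x S) := by
      intro x hx
      rw [hc2]
      constructor
      · rintro ⟨_, h | h⟩
        · exact h
        · exact absurd h.1 hx.ne
      · intro h
        exact ⟨hx.trans (lt_add_one' n), Or.inl h⟩
    have hmk : ∀ z, z < n + 1 → mk (z + 1) (fun x => el x c ∨ x = z) =
        mk (z + 1) (fun x => el x S ∨ x = z) := by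
      intro z hz
      refine mk_congr fun x hx => ?_
      rcases eq_or_lt_of_le (lt_add_one_iff'.mp hx) with h | h
      · simp [h]
      · rw [hlt x (h.trans_le (lt_add_one_iff'.mp hz))]
    refine ⟨c, hc, ?_, ?_⟩
    · intro x _ hx
      exact ((hc2 x).mp hx).1
    · intro z hz
      rw [hmk z hz]
      rcases eq_or_lt_of_le (lt_add_one_iff'.mp hz) with h | h
      · subst h
        rw [hc2]
        constructor
        · rintro ⟨_, h | h⟩
          · exact absurd (core_lt_of_gr hC hgr h) (lt_irrefl _)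
          · exact h.2
        · intro h
          exact ⟨lt_add_one' z, Or.inr ⟨rfl, h⟩⟩
      · rw [hlt z h]
        exact hgr.2 z h

/-- Uniqueness of the greedy sets. -/
theorem core_unique (hC : CodAPI M bd) (hB : Base B) {G : Set M} {n n' S S' : M}
    (h : core_Gr G n S) (h' : core_Gr G n' S') (hn : n ≤ n') :
    ∀ x, x < n → (el x S ↔ el x S') := by
  have key : ∀ k, ∀ x, x < k → (x < n → (el x S ↔ el x S')) := by
    refine hB.ind (fun k => ∀ x, x < k → (x < n → (el x S ↔ el x S'))) ?_ ?_ ?_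
    · refine RecP.ball hB.coll (t := fun k : M => k) Rec.id
        (R := fun _ x => x < n → (el x S ↔ el x S')) ?_
      refine (RecP.lt PMap.id.snd.rec (Rec.const n)).imp (RecP.iff ?_ ?_)
      · exact (core_el_rec1 hC B S).comp (F := fun g : M × M => g.2) PMap.id.snd.rec
      · exact (core_el_rec1 hC B S').comp (F := fun g : M × M => g.2) PMap.id.snd.rec
    · intro x hx
      exact absurd hx (not_lt_zero'' x)
    · intro k hk x hx hxn
      rcases eq_or_lt_of_le (lt_add_one_iff'.mp hx) with h1 | h1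
      · subst h1
        rw [h.2 x hxn, h'.2 x (hxn.trans_le hn)]
        have : mk (x + 1) (fun y => el y S ∨ y = x) = mk (x + 1) (fun y => el y S' ∨ y = x) := by
          refine mk_congr fun y hy => ?_
          rcases eq_or_lt_of_le (lt_add_one_iff'.mp hy) with h2 | h2
          · simp [h2]
          · rw [hk y h2 (h2.trans hxn)]
        rw [this]
      · exact hk x h1 hxn
  intro x hx
  exact key (x + 1) x (lt_add_one' x) hx

theorem core_mem_V (hC : CodAPI M bd) (hB : Base B) {G : Set M} {n S : M} (h : core_Gr G n S)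
    {z : M} (hz : z < n) : z ∈ core_V bd G ↔ el z S := by
  constructor
  · rintro ⟨S', _, hS', hz'⟩
    exact (core_unique hC hB hS' h (add_one_le_of_lt hz) z (lt_add_one' z)).mp hz'
  · intro hzS
    obtain ⟨c, hc, hc2⟩ := core_code hC hB (core_el_rec1 hC B S) (z + 1)
    refine ⟨c, hc, ⟨?_, ?_⟩, ?_⟩
    · intro x _ hx
      exact ((hc2 x).mp hx).1
    · intro w hw
      have hwn : w < n := hw.trans_le (add_one_le_of_lt hz)
      have h1 : mk (w + 1) (fun x => el x c ∨ x = w) = mk (w + 1) (fun x => el x S ∨ x = w) := by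
        refine mk_congr fun x hx => ?_
        rw [hc2]
        have : x < z + 1 := hx.trans_le (add_one_le_of_lt hw)
        simp [this]
      rw [h1, hc2, ← h.2 w hwn]
      exact ⟨fun h => h.2, fun h => ⟨hw, h⟩⟩
    · rw [hc2]
      exact ⟨lt_add_one' z, hzS⟩

/-- The greedy property. -/
theorem core_V_iff (hC : CodAPI M bd) (hB : Base B) {G : Set M} (hG : RecP B (fun x => x ∈ G))
    (z : M) : z ∈ core_V bd G ↔ mk (z + 1) (fun x => x ∈ core_V bd G ∨ x = z) ∈ G := by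
  obtain ⟨S, _, hS⟩ := core_exists hC hB hG (z + 1)
  rw [core_mem_V hC hB hS (lt_add_one' z), hS.2 z (lt_add_one' z)]
  have : mk (z + 1) (fun x => el x S ∨ x = z) =
      mk (z + 1) (fun x => x ∈ core_V bd G ∨ x = z) := by
    refine mk_congr fun x hx => ?_
    rw [core_mem_V hC hB hS hx]
  rw [this]

/-! ### Events -/

variable {f : M × M → Prop} {Φ : (M × M) × M → Prop}

theorem core_ev_mono {b e n n' c : M} (hn : n ≤ n') (h : Ev Φ b e n c) : Ev Φ b e n' c := by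
  rcases h with ⟨h1, m, hm, h2⟩ | ⟨h1, x, hx, h2⟩
  · exact Or.inl ⟨h1, m, hm.trans_le (by gcongr), h2⟩
  · exact Or.inr ⟨h1, x, hx.trans_le hn, h2⟩

theorem core_ev_congr (hL : Local Φ) {b e n N c c' : M} (hn : n ≤ N) (hc : Agree N c c')
    (h : Ev Φ b e n c) : Ev Φ b e n c' := by
  rcases h with ⟨h1, m, hm, h2⟩ | ⟨h1, x, hx, h2⟩
  · refine Or.inl ⟨h1, m, hm, hL e m c c' (fun x hx => hc x ?_) h2⟩
    exact hx.trans_le ((lt_add_one_iff'.mp hm).trans hn)
  · exact Or.inr ⟨h1, x, hx, h2.1, (hc x (hx.trans_le hn)).mp h2.2⟩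

/-- Consecutive elements of `V`. -/
def core_Nx (V : Set M) (g g' : M) : Prop :=
  g ∈ V ∧ (g' ∈ V ∧ (g < g' ∧ ∀ z, z < g' → (g < z → ¬ z ∈ V)))

/-- The tree. -/
def core_T (V : Set M) (f : M × M → Prop) (Φ : (M × M) × M → Prop) (z : M × M) : Prop :=
  Hom0 f z.1 z.2 ∧ ∀ g, g < z.1 → ∀ g', g' < z.1 + 1 → (core_Nx V g g' →
    ((∀ e, e < g + 1 → (Ev Φ g e z.1 z.2 → Ev Φ g e g' z.2)) ∧
      ∃ x, x < g' ∧ (g ≤ x ∧ el x z.2)))

theorem core_hom_rec (hC : CodAPI M bd) (hB : Coll1 B) (hf : RecP B f) :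
    RecP B (fun z : M × M => Hom0 f z.1 z.2) := by
  have hel := core_el hC B
  have h : RecP B (fun z : M × M => ∀ y, y < z.1 → ∀ x, x < y →
      (el x z.2 → (el y z.2 → ¬ f (x, y)))) := by
    refine RecP.ball hB (t := fun z : M × M => z.1) PMap.id.fst.rec
      (R := fun z y => ∀ x, x < y → (el x z.2 → (el y z.2 → ¬ f (x, y)))) ?_
    refine RecP.ball hB (t := fun g : (M × M) × M => g.2) PMap.id.snd.rec
      (R := fun g x => (el x g.1.2 → (el g.2 g.1.2 → ¬ f (x, g.2)))) ?_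
    refine RecP.imp ?_ (RecP.imp ?_ (RecP.not ?_))
    · exact hel.comp (F := fun g : ((M × M) × M) × M => (g.2, g.1.1.2))
        (PMap.id.snd.rec.prodMk PMap.id.fst.fst.snd.rec)
    · exact hel.comp (F := fun g : ((M × M) × M) × M => (g.1.2, g.1.1.2))
        (PMap.id.fst.snd.rec.prodMk PMap.id.fst.fst.snd.rec)
    · exact hf.comp (F := fun g : ((M × M) × M) × M => (g.2, g.1.2))
        (PMap.id.snd.rec.prodMk PMap.id.fst.snd.rec)
  refine h.congr fun z => ?_
  constructor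
  · intro h1 y hy x hx hxc hyc
    exact h1 x y hx hy hxc hyc
  · intro h1 x y hx hy hxc hyc
    exact h1 y hy x hx hxc hyc

theorem core_nx_rec (hB : Coll1 B) {V : Set M} (hV : RecP B (fun x => x ∈ V)) :
    RecP B (fun z : M × M => core_Nx V z.1 z.2) := by
  refine RecP.and (hV.comp (F := fun z : M × M => z.1) PMap.id.fst.rec)
    (RecP.and (hV.comp (F := fun z : M × M => z.2) PMap.id.snd.rec)
    (RecP.and (RecP.lt PMap.id.fst.rec PMap.id.snd.rec) ?_))
  refine RecP.ball hB (t := fun z : M × M => z.2) PMap.id.snd.rec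
    (R := fun z x => z.1 < x → ¬ x ∈ V) ?_
  exact (RecP.lt PMap.id.fst.fst.rec PMap.id.snd.rec).imp
    (hV.comp (F := fun g : (M × M) × M => g.2) PMap.id.snd.rec).not

theorem core_T_rec (hC : CodAPI M bd) (hB : Coll1 B) (hf : RecP B f) {V : Set M}
    (hV : RecP B (fun x => x ∈ V))
    (hE : RecP B (fun z : ((M × M) × M) × M => Ev Φ z.1.1.1 z.1.1.2 z.1.2 z.2)) :
    RecP B (core_T V f Φ) := by
  have hel := core_el hC B
  refine RecP.and (core_hom_rec hC hB hf) ?_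
  refine RecP.ball hB (t := fun z : M × M => z.1) PMap.id.fst.rec
    (R := fun z g => ∀ g', g' < z.1 + 1 → (core_Nx V g g' →
    ((∀ e, e < g + 1 → (Ev Φ g e z.1 z.2 → Ev Φ g e g' z.2)) ∧
      ∃ x, x < g' ∧ (g ≤ x ∧ el x z.2)))) ?_
  refine RecP.ball hB (t := fun w : (M × M) × M => w.1.1 + 1) (core_succ PMap.id.fst.fst.rec)
    (R := fun w g' => (core_Nx V w.2 g' →
    ((∀ e, e < w.2 + 1 → (Ev Φ w.2 e w.1.1 w.1.2 → Ev Φ w.2 e g' w.1.2)) ∧
      ∃ x, x < g' ∧ (w.2 ≤ x ∧ el x w.1.2)))) ?_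
  refine RecP.imp ?_ (RecP.and ?_ ?_)
  · exact (core_nx_rec hB hV).comp (F := fun u : ((M × M) × M) × M => (u.1.2, u.2))
      (PMap.id.fst.snd.rec.prodMk PMap.id.snd.rec)
  · refine RecP.ball hB (t := fun u : ((M × M) × M) × M => u.1.2 + 1)
      (core_succ PMap.id.fst.snd.rec)
      (R := fun u e => (Ev Φ u.1.2 e u.1.1.1 u.1.1.2 → Ev Φ u.1.2 e u.2 u.1.1.2)) ?_
    refine RecP.imp ?_ ?_
    · exact hE.comp (F := fun w : (((M × M) × M) × M) × M =>
        (((w.1.1.2, w.2), w.1.1.1.1), w.1.1.1.2))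
        (((PMap.id.fst.fst.snd.rec.prodMk PMap.id.snd.rec).prodMk
          PMap.id.fst.fst.fst.fst.rec).prodMk PMap.id.fst.fst.fst.snd.rec)
    · exact hE.comp (F := fun w : (((M × M) × M) × M) × M =>
        (((w.1.1.2, w.2), w.1.2), w.1.1.1.2))
        (((PMap.id.fst.fst.snd.rec.prodMk PMap.id.snd.rec).prodMk
          PMap.id.fst.snd.rec).prodMk PMap.id.fst.fst.fst.snd.rec)
  · refine RecP.bex hB (t := fun u : ((M × M) × M) × M => u.2) PMap.id.snd.rec
      (R := fun u x => (u.1.2 ≤ x ∧ el x u.1.1.2)) ?_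
    refine (RecP.le PMap.id.fst.fst.snd.rec PMap.id.snd.rec).and ?_
    exact hel.comp (F := fun w : (((M × M) × M) × M) × M => (w.2, w.1.1.1.2))
      (PMap.id.snd.rec.prodMk PMap.id.fst.fst.fst.snd.rec)

theorem core_T_local (hL : Local Φ) {V : Set M} {n c c' : M} (hc : Agree n c c')
    (h : core_T V f Φ (n, c)) : core_T V f Φ (n, c') := by
  obtain ⟨h1, h2⟩ := h
  have hc' : Agree n c' c := fun x hx => (hc x hx).symm
  refine ⟨fun x y hxy hy hx hy' => h1 x y hxy hy ((hc x (hxy.trans hy)).mpr hx)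
    ((hc y hy).mpr hy'), ?_⟩
  intro g hg g' hg' hN
  obtain ⟨h3, x, hx, hx2, hx3⟩ := h2 g hg g' hg' hN
  have hgn : g' ≤ n := lt_add_one_iff'.mp hg'
  refine ⟨fun e he hev => ?_, x, hx, hx2, (hc x (hx.trans_le hgn)).mp hx3⟩
  exact core_ev_congr hL hgn hc (h3 e he (core_ev_congr hL le_rfl hc' hev))

theorem core_T_restrict {V : Set M} {n n' c : M} (hn : n ≤ n')
    (h : core_T V f Φ (n', c)) : core_T V f Φ (n, c) := by
  obtain ⟨h1, h2⟩ := h
  refine ⟨fun x y hxy hy => h1 x y hxy (hy.trans_le hn), ?_⟩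
  intro g hg g' hg' hN
  have hg'' : g' < n' + 1 := hg'.trans_le (by gcongr)
  obtain ⟨h3, h4⟩ := h2 g (hg.trans_le hn) g' hg'' hN
  exact ⟨fun e he hev => h3 e he (core_ev_mono hn hev), h4⟩

/-- The properties of `V` which are used. -/
structure core_GV (bd : M → M) (f : M × M → Prop) (Φ : (M × M) × M → Prop) (B : ℕ → Set M)
    (V : Set M) : Prop where
  hr : RecP B (fun x => x ∈ V)
  good : ∀ v ∈ V, ∃ S, (∀ x, el x S ↔ x < v + 1 ∧ x ∈ V) ∧ Good bd f Φ S v
  unb : ∀ b, ∃ v ∈ V, b ≤ v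

theorem core_gv (hC : CodAPI M bd) (hB : Base B)
    (hG : RecP B (fun x => x ∈ GoodSet bd f Φ))
    (hsingle : ∀ S : M, (∀ x, el x S ↔ x = 0) → Good bd f Φ S 0)
    (hone : ∀ S m : M, IsMaxOf S m → Good bd f Φ S m →
      ∃ u, m < u ∧ ∀ S', (∀ x, el x S' ↔ el x S ∨ x = u) → Good bd f Φ S' u) :
    core_GV bd f Φ B (core_V bd (GoodSet bd f Φ)) := by
  set G := GoodSet bd f Φ with hGdef
  set V := core_V bd G with hVdef
  have hV : RecP B (fun x => x ∈ V) := core_V_rec hC hB hG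
  have hiff : ∀ z, z ∈ V ↔ mk (z + 1) (fun x => x ∈ V ∨ x = z) ∈ G :=
    core_V_iff hC hB hG
  have hspec : ∀ z x, el x (mk (z + 1) (fun x => x ∈ V ∨ x = z)) ↔
      x < z + 1 ∧ (x ∈ V ∨ x = z) := fun z x =>
    hC.mk_spec B hB _ (hV.or (core_eq_rec1 B z)) (z + 1) x
  have hmax : ∀ z, IsMaxOf (mk (z + 1) (fun x => x ∈ V ∨ x = z)) z := fun z =>
    ⟨(hspec z z).mpr ⟨lt_add_one' z, Or.inr rfl⟩, fun x hx =>
      lt_add_one_iff'.mp ((hspec z x).mp hx).1⟩
  have hgd : ∀ z ∈ V, Good bd f Φ (mk (z + 1) (fun x => x ∈ V ∨ x = z)) z := fun z hz =>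
    (hiff z).mp hz z (hmax z)
  have hmem : ∀ z, Good bd f Φ (mk (z + 1) (fun x => x ∈ V ∨ x = z)) z → z ∈ V := by
    intro z hz
    rw [hiff]
    intro m hm
    have : m = z := le_antisymm ((hmax z).2 m hm.1) (hm.2 z (hmax z).1)
    rw [this]
    exact hz
  have h0 : (0 : M) ∈ V := by
    refine hmem 0 (hsingle _ fun x => ?_)
    rw [hspec, lt_add_one_iff']
    constructor
    · rintro ⟨h, _⟩
      exact le_antisymm h (PModel.zero_le'' x)
    · rintro rfl
      exact ⟨le_rfl, Or.inr rfl⟩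
  refine ⟨hV, ?_, ?_⟩
  · intro v hv
    refine ⟨_, fun x => ?_, hgd v hv⟩
    rw [hspec]
    constructor
    · rintro ⟨h1, h2 | h2⟩
      · exact ⟨h1, h2⟩
      · exact ⟨h1, h2 ▸ hv⟩
    · rintro ⟨h1, h2⟩
      exact ⟨h1, Or.inl h2⟩
  · by_contra hcon
    push Not at hcon
    obtain ⟨b, hb⟩ := hcon
    have hP : RecP B (fun k : M => ∀ z, z < b → (z ∈ V → z ≤ k)) := by
      refine RecP.ball hB.coll (t := fun _ : M => b) (Rec.const b)
        (R := fun k z => (z ∈ V → z ≤ k)) ?_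
      exact (hV.comp (F := fun g : M × M => g.2) PMap.id.snd.rec).imp
        (RecP.le PMap.id.snd.rec PMap.id.fst.rec)
    obtain ⟨k, hk, hkmin⟩ := hB.lnp hP ⟨b, fun z hz _ => hz.le⟩
    have hk' : ∀ z ∈ V, z ≤ k := fun z hz => hk z (hb z hz) hz
    have hkV : k ∈ V := by
      by_contra hkV
      have hk0 : k ≠ 0 := by
        rintro rfl
        exact hkV h0
      obtain ⟨k', rfl⟩ := exists_pred hk0
      refine hkmin k' (lt_add_one' k') fun z hz hzV => ?_
      rcases eq_or_lt_of_le (hk' z hzV) with h | h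
      · exact absurd (h ▸ hzV) hkV
      · exact lt_add_one_iff'.mp h
    obtain ⟨u, hu, hS⟩ := hone _ k (hmax k) (hgd k hkV)
    have huV : u ∈ V := by
      refine hmem u (hS _ fun x => ?_)
      rw [hspec, hspec]
      constructor
      · rintro ⟨_, h | h⟩
        · exact Or.inl ⟨lt_add_one_iff'.mpr (hk' x h), Or.inl h⟩
        · exact Or.inr h
      · rintro (⟨h, h2⟩ | h)
        · have hx : x ∈ V := by
            rcases h2 with h2 | h2
            · exact h2
            · exact h2 ▸ hkV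
          exact ⟨h.trans_le ((add_one_le_of_lt hu).trans (lt_add_one' u).le), Or.inl hx⟩
        · rw [h]
          exact ⟨lt_add_one' u, Or.inr rfl⟩
    exact absurd (hk' u huV) (not_le.mpr hu)

theorem core_next (hB : Base B) {V : Set M} (h : core_GV bd f Φ B V) {v : M} (hv : v ∈ V) :
    ∃ v', core_Nx V v v' := by
  have hP : RecP B (fun x : M => x ∈ V ∧ v < x) := h.hr.and (RecP.lt (Rec.const v) Rec.id)
  obtain ⟨w, hw, hw2⟩ := h.unb (v + 1)
  obtain ⟨x, ⟨hx, hx2⟩, hmin⟩ := hB.lnp hP ⟨w, hw, (lt_add_one' v).trans_le hw2⟩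
  exact ⟨x, hv, hx, hx2, fun z hz hz2 hz3 => hmin z hz ⟨hz3, hz2⟩⟩

/-- The tree is unbounded. -/
theorem core_T_unb (hC : CodAPI M bd) (hB : Base B) {V : Set M} (h : core_GV bd f Φ B V)
    (n : M) : ∃ n' c, n ≤ n' ∧ core_T V f Φ (n', c) := by
  obtain ⟨v, hv, hnv⟩ := h.unb n
  obtain ⟨S, hS, hgood⟩ := h.good v hv
  obtain ⟨C, _, hcov, hatt⟩ := hgood (v + 1) (lt_add_one' v).le
  obtain ⟨k, hk, hkC⟩ := hcov v (lt_add_one' v) le_rfl trivial
  obtain ⟨s, hs, hom, hyx, hmain⟩ := hatt k hk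
  have hR : True ∧ el (pair v k) C := ⟨trivial, hkC⟩
  refine ⟨v, s, hnv, hom, ?_⟩
  intro g hg g' hg' hN
  have hN2 : Cons2 S g g' := by
    obtain ⟨h1, h2, h3, h4⟩ := hN
    refine ⟨(hS g).mpr ⟨hg.trans (lt_add_one' v), h1⟩, (hS g').mpr ⟨hg', h2⟩, h3, ?_⟩
    intro z hz hz2 hz3
    exact h4 z hz hz2 ((hS z).mp hz3).2
  have hgv : g' ≤ v := lt_add_one_iff'.mp hg'
  constructor
  · intro e he hev
    refine hmain v ?_ s ?_ ?_ g hg g' hg' hN2 e he hev
    · exact (lt_add_one' v).trans (lt_add_one' (v + 1))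
    · exact hs.trans_le (hC.bd_mono (lt_add_one' v).le)
    · exact ⟨le_rfl, fun x _ => Iff.rfl, fun x hx hx2 => absurd hx (not_lt.mpr hx2), hom⟩
  · have hP : RecP B (fun x : M => el x s ∧ x < v ∨ x = v) :=
      ((core_el_rec1 hC B s).and (RecP.lt Rec.id (Rec.const v))).or (core_eq_rec1 B v)
    obtain ⟨t, ht, ht2⟩ := core_code hC hB hP (v + 1)
    have hlow : ∀ x, x < v → (el x s ↔ el x t) := by
      intro x hx
      rw [ht2]
      constructor
      · intro h1
        exact ⟨hx.trans (lt_add_one' v), Or.inl ⟨h1, hx⟩⟩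
      · rintro ⟨_, h1 | h1⟩
        · exact h1.1
        · exact absurd h1 hx.ne
    have hvt : el v t := (ht2 v).mpr ⟨lt_add_one' v, Or.inr rfl⟩
    have hext : Ext f v s (v + 1) t (fun y => True ∧ el (pair y k) C) := by
      refine ⟨(lt_add_one' v).le, hlow, ?_, ?_⟩
      · intro x hx hx2 _
        have : x = v := le_antisymm (lt_add_one_iff'.mp hx) hx2
        rw [this]
        exact hR
      · intro x y hxy hy hx hy'
        rcases eq_or_lt_of_le (lt_add_one_iff'.mp hy) with h1 | h1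
        · subst h1
          exact hyx y (lt_add_one' y) le_rfl hR x hxy ((hlow x hxy).mpr hx)
        · exact hom x y hxy h1 ((hlow x (hxy.trans h1)).mpr hx) ((hlow y h1).mpr hy')
    have hgg : g < g' := hN.2.2.1
    have h1 := hmain (v + 1) (lt_add_one' _) t ht hext g hg g' hg' hN2 g (lt_add_one' g)
      (Or.inr ⟨rfl, v, lt_add_one' v, hg.le, hvt⟩)
    rcases h1 with ⟨h2, _⟩ | ⟨_, x, hx, hx2, hx3⟩
    · exact absurd h2 (lt_irrefl _)
    · exact ⟨x, hx, hx2, (hlow x (hx.trans_le hgv)).mpr hx3⟩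

theorem core_key (hL : Local Φ) {V H : Set M}
    (hH : ∀ n, ∃ c, (∀ x, el x c ↔ x < n ∧ x ∈ H) ∧ core_T V f Φ (n, c)) {e g g' c : M}
    (hN : core_Nx V g g') (he : e < g) (hc : ∀ x, el x c ↔ x < g' ∧ x ∈ H) :
    Ev Φ g e g' c ↔ ∃ n c', (∀ x, el x c' ↔ x < n ∧ x ∈ H) ∧ Φ ((e, n), c') := by
  constructor
  · rintro (⟨_, m, hm, h2⟩ | ⟨h1, _⟩)
    · obtain ⟨d, hd, _⟩ := hH m
      refine ⟨m, d, hd, hL e m c d (fun x hx => ?_) h2⟩
      rw [hc, hd]
      have : x < g' := hx.trans_le (lt_add_one_iff'.mp hm)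
      simp [hx, this]
    · exact absurd he (h1 ▸ lt_irrefl _)
  · rintro ⟨n, c', hc', hΦ⟩
    obtain ⟨d, hd, hT⟩ := hH (max n g')
    have hgg : g < g' := hN.2.2.1
    have h1 : Ev Φ g e (max n g') d := by
      refine Or.inl ⟨he, n, lt_add_one_iff'.mpr (le_max_left _ _), hL e n c' d (fun x hx => ?_) hΦ⟩
      rw [hc', hd]
      have : x < max n g' := hx.trans_le (le_max_left _ _)
      simp only [hx, this, true_and]
    have h2 := (hT.2 g (hgg.trans_le (le_max_right _ _)) g'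
      (lt_add_one_iff'.mpr (le_max_right _ _)) hN).1 e (he.trans (lt_add_one' g)) h1
    refine core_ev_congr hL le_rfl (fun x hx => ?_) h2
    rw [hd, hc]
    have : x < max n g' := hx.trans_le (le_max_right _ _)
    simp only [hx, this, true_and]

/-- `c` codes `H ∩ [0,n)`. -/
def core_Cd (H : Set M) (n c : M) : Prop :=
  (∀ x, x < n → (el x c ↔ x ∈ H)) ∧ ∀ x, x < c → (el x c → x < n)

theorem core_cd_iff (hC : CodAPI M bd) {H : Set M} {n c : M} :
    core_Cd H n c ↔ ∀ x, el x c ↔ x < n ∧ x ∈ H := by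
  constructor
  · rintro ⟨h1, h2⟩ x
    constructor
    · intro h
      have hx := h2 x (hC.el_lt x c h) h
      exact ⟨hx, (h1 x hx).mp h⟩
    · rintro ⟨hx, h⟩
      exact (h1 x hx).mpr h
  · intro h
    exact ⟨fun x hx => by rw [h]; simp [hx], fun x _ hx => ((h x).mp hx).1⟩

theorem core_cd_rec (hC : CodAPI M bd) (hB : Coll1 B) {H : Set M} (hH : RecP B (fun x => x ∈ H)) :
    RecP B (fun z : M × M => core_Cd H z.1 z.2) := by
  have hel := core_el hC B
  refine RecP.and ?_ ?_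
  · refine RecP.ball hB (t := fun z : M × M => z.1) PMap.id.fst.rec
      (R := fun z x => (el x z.2 ↔ x ∈ H)) ?_
    exact (hel.comp (F := fun g : (M × M) × M => (g.2, g.1.2))
      (PMap.id.snd.rec.prodMk PMap.id.fst.snd.rec)).iff
      (hH.comp (F := fun g : (M × M) × M => g.2) PMap.id.snd.rec)
  · refine RecP.ball hB (t := fun z : M × M => z.2) PMap.id.snd.rec
      (R := fun z x => (el x z.2 → x < z.1)) ?_
    exact (hel.comp (F := fun g : (M × M) × M => (g.2, g.1.2))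
      (PMap.id.snd.rec.prodMk PMap.id.fst.snd.rec)).imp
      (RecP.lt PMap.id.snd.rec PMap.id.fst.fst.rec)

/-- The reduction of `Σ₁` relations with the new oracle to `Δ₁` relations. -/
theorem core_red (hC : CodAPI M bd) (hB : Coll1 B) (hL : Local Φ) {V H : Set M}
    (hH : ∀ n, ∃ c, (∀ x, el x c ↔ x < n ∧ x ∈ H) ∧ core_T V f Φ (n, c))
    (hV : RecP B (fun x => x ∈ V)) (hHr : RecP B (fun x => x ∈ H))
    (hE : RecP B (fun z : ((M × M) × M) × M => Ev Φ z.1.1.1 z.1.1.2 z.1.2 z.2))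
    (hunb : ∀ e : M, ∃ g g', e < g ∧ core_Nx V g g') {Γ : Type u} [Ctx M Γ] {e : Γ → M}
    (he : Rec B e) :
    RecP B (fun g => ∃ n c', (∀ x, el x c' ↔ x < n ∧ x ∈ H) ∧ Φ ((e g, n), c')) := by
  have hcd := core_cd_rec hC hB hHr
  have hnx := core_nx_rec hB hV
  -- the matrix, positive and negative
  have hm : RecP B (fun w : ((Γ × M) × M) × M => core_Nx V w.1.1.2 w.1.2 ∧
      (e w.1.1.1 < w.1.1.2 ∧ core_Cd H w.1.2 w.2)) := by
    refine RecP.and ?_ (RecP.and ?_ ?_)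
    · exact hnx.comp (F := fun w : ((Γ × M) × M) × M => (w.1.1.2, w.1.2))
        (PMap.id.fst.fst.snd.rec.prodMk PMap.id.fst.snd.rec)
    · exact RecP.lt (he.comp (G := fun w : ((Γ × M) × M) × M => w.1.1.1)
        PMap.id.fst.fst.fst.rec) PMap.id.fst.fst.snd.rec
    · exact hcd.comp (F := fun w : ((Γ × M) × M) × M => (w.1.2, w.2))
        (PMap.id.fst.snd.rec.prodMk PMap.id.snd.rec)
  have hev : RecP B (fun w : ((Γ × M) × M) × M => Ev Φ w.1.1.2 (e w.1.1.1) w.1.2 w.2) :=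
    hE.comp (F := fun w : ((Γ × M) × M) × M => (((w.1.1.2, e w.1.1.1), w.1.2), w.2))
      (((PMap.id.fst.fst.snd.rec.prodMk (he.comp (G := fun w : ((Γ × M) × M) × M => w.1.1.1)
        PMap.id.fst.fst.fst.rec)).prodMk PMap.id.fst.snd.rec).prodMk PMap.id.snd.rec)
  have hpos : Sig1 B (fun g : Γ => ∃ a b c, (core_Nx V a b ∧ (e g < a ∧ core_Cd H b c)) ∧
      Ev Φ a (e g) b c) := by
    refine Sig1.ex (R := fun g a => ∃ b c, (core_Nx V a b ∧ (e g < a ∧ core_Cd H b c)) ∧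
      Ev Φ a (e g) b c) ?_
    refine Sig1.ex (R := fun (w : Γ × M) b => ∃ c, (core_Nx V w.2 b ∧
      (e w.1 < w.2 ∧ core_Cd H b c)) ∧ Ev Φ w.2 (e w.1) b c) ?_
    refine Sig1.ex (R := fun (w : (Γ × M) × M) c => (core_Nx V w.1.2 w.2 ∧
      (e w.1.1 < w.1.2 ∧ core_Cd H w.2 c)) ∧ Ev Φ w.1.2 (e w.1.1) w.2 c) ?_
    exact (hm.and hev).1
  have hneg : Sig1 B (fun g : Γ => ∃ a b c, (core_Nx V a b ∧ (e g < a ∧ core_Cd H b c)) ∧
      ¬ Ev Φ a (e g) b c) := by
    refine Sig1.ex (R := fun g a => ∃ b c, (core_Nx V a b ∧ (e g < a ∧ core_Cd H b c)) ∧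
      ¬ Ev Φ a (e g) b c) ?_
    refine Sig1.ex (R := fun (w : Γ × M) b => ∃ c, (core_Nx V w.2 b ∧
      (e w.1 < w.2 ∧ core_Cd H b c)) ∧ ¬ Ev Φ w.2 (e w.1) b c) ?_
    refine Sig1.ex (R := fun (w : (Γ × M) × M) c => (core_Nx V w.1.2 w.2 ∧
      (e w.1.1 < w.1.2 ∧ core_Cd H w.2 c)) ∧ ¬ Ev Φ w.1.2 (e w.1.1) w.2 c) ?_
    exact (hm.and hev.not).1
  have hex : ∀ g : Γ, ∃ a b c, (core_Nx V a b ∧ (e g < a ∧ core_Cd H b c)) := by
    intro g
    obtain ⟨a, b, ha, hab⟩ := hunb (e g)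
    obtain ⟨c, hc, _⟩ := hH b
    exact ⟨a, b, c, hab, ha, (core_cd_iff hC).mpr hc⟩
  constructor
  · refine hpos.congr fun g => ?_
    constructor
    · intro h
      obtain ⟨a, b, c, hN, ha, hc⟩ := hex g
      exact ⟨a, b, c, ⟨hN, ha, hc⟩, (core_key hL hH hN ha ((core_cd_iff hC).mp hc)).mpr h⟩
    · rintro ⟨a, b, c, ⟨hN, ha, hc⟩, h⟩
      exact (core_key hL hH hN ha ((core_cd_iff hC).mp hc)).mp h
  · refine hneg.congr fun g => ?_
    constructor
    · intro h
      obtain ⟨a, b, c, hN, ha, hc⟩ := hex g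
      exact ⟨a, b, c, ⟨hN, ha, hc⟩,
        fun h' => h ((core_key hL hH hN ha ((core_cd_iff hC).mp hc)).mp h')⟩
    · rintro ⟨a, b, c, ⟨hN, ha, hc⟩, h⟩ h'
      exact h ((core_key hL hH hN ha ((core_cd_iff hC).mp hc)).mpr h')

end core

/-- CORE. -/
theorem st_CORE (hUNIV : ST_UNIV.{u}) (hUPD : ST_UPD.{u}) (hPATH : ST_PATH.{u})
    (hDEFN : ST_DEFN.{u}) (hONE : ST_ONE.{u}) : ST_CORE.{u} := by
  intro M _ _ bd hC pw card hpw hcard A hA hfin f l hf hl j hj
  obtain ⟨m0, hm0⟩ := hfin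
  obtain ⟨Φ, hΦ, hL, huniv⟩ := hUNIV M bd hC A hA ⟨m0, hm0⟩ j hj
  have D := hDEFN M bd hC A hA f Φ hf hΦ hL
  obtain ⟨j2, hj2, hjj⟩ : ∃ j2, A j2 = ∅ ∧ j ≠ j2 :=
    ⟨max m0 (j + 1), hm0 _ (le_max_left _ _), by
      have := le_max_right m0 (j + 1)
      omega⟩
  have hBase := hUPD M bd hC A hA j2 hj2 (GoodSet bd f Φ) D.good_pi
  have hGr : RecP (Function.update A j2 (GoodSet bd f Φ)) (fun x => x ∈ GoodSet bd f Φ) := by
    have := RecP.mem (A := Function.update A j2 (GoodSet bd f Φ)) j2 (Rec.id (Γ := M))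
    rw [Function.update_self] at this
    exact this
  have hA2j : Function.update A j2 (GoodSet bd f Φ) j = ∅ := by
    rw [Function.update_of_ne hjj]
    exact hj
  have gv := core_gv hC hBase hGr D.good_single
    (hONE M bd hC pw card hpw hcard A hA f l hf hl Φ hΦ hL D)
  have hE : RecP A (fun z : ((M × M) × M) × M => Ev Φ z.1.1.1 z.1.1.2 z.1.2 z.2) :=
    D.ev_rec (((M × M) × M) × M) (fun z => z.1.1.1) (fun z => z.1.1.2) (fun z => z.1.2)
      (fun z => z.2) PMap.id.fst.fst.fst.rec PMap.id.fst.fst.snd.rec PMap.id.fst.snd.rec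
      PMap.id.snd.rec
  have hE2 := hE.upd hj2 (GoodSet bd f Φ)
  have hT := core_T_rec hC hBase.coll (hf.upd hj2 (GoodSet bd f Φ)) gv.hr hE2
  obtain ⟨H, hH, hB2⟩ := hPATH M bd hC _ hBase j hA2j _ hT
    (fun _ _ _ => core_T_local hL) (fun _ _ _ => core_T_restrict) (core_T_unb hC hBase gv)
  have hunb : ∀ e : M, ∃ g g', e < g ∧ core_Nx (core_V bd (GoodSet bd f Φ)) g g' := by
    intro e
    obtain ⟨v, hv, hev⟩ := gv.unb (e + 1)
    obtain ⟨v', hv'⟩ := core_next hBase gv hv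
    exact ⟨v, v', (lt_add_one' e).trans_le hev, hv'⟩
  refine ⟨H, ?_, ?_, ?_⟩
  · intro b
    obtain ⟨g, g', hbg, hN⟩ := hunb b
    obtain ⟨c, hc, hTc⟩ := hH g'
    obtain ⟨_, x, hx, hx2, hx3⟩ := hTc.2 g hN.2.2.1 g' (lt_add_one' g') hN
    exact ⟨x, ((hc x).mp hx3).2, hbg.trans_le hx2⟩
  · intro x hx y hy hxy
    obtain ⟨c, hc, hTc⟩ := hH (y + 1)
    exact hTc.1 x y hxy (lt_add_one' y) ((hc x).mpr ⟨hxy.trans (lt_add_one' y), hx⟩)
      ((hc y).mpr ⟨lt_add_one' y, hy⟩)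
  · have hV2 := gv.hr.upd hA2j H
    have hE3 := hE2.upd hA2j H
    have hHr : RecP (Function.update (Function.update A j2 (GoodSet bd f Φ)) j H)
        (fun x => x ∈ H) := by
      have := RecP.mem (A := Function.update (Function.update A j2 (GoodSet bd f Φ)) j H) j
        (Rec.id (Γ := M))
      rw [Function.update_self] at this
      exact this
    have key : ∀ (Γ : Type u) [Ctx M Γ] (R : Γ → Prop), Sig1 (Function.update A j H) R →
        RecP (Function.update (Function.update A j2 (GoodSet bd f Φ)) j H) R := by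
      intro Γ _ R hR
      obtain ⟨φ, hφ⟩ := hR
      obtain ⟨e, he, hu⟩ := huniv φ Γ
      have he2 := (he.upd hj2 (GoodSet bd f Φ)).upd hA2j H
      refine (core_red hC hB2.coll hL hH hV2 hHr hE3 hunb he2).congr fun g => ?_
      exact (hφ g).trans (hu H (fun n => by
        obtain ⟨c, hc, _⟩ := hH n
        exact ⟨c, hc⟩) g)
    refine ⟨fun P hP h0 hs => hB2.ind P (key M P hP) h0 hs, fun R hR a h => ?_⟩
    have h1 : Sig1 (Function.update (Function.update A j2 (GoodSet bd f Φ)) j H) R :=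
      (key (M × M) _ hR).not.1.congr fun _ => not_not.symm
    exact hB2.coll R h1 a h

end Pool.Agent.Helper70.BRT
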